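import Pool.Agent.Results.MP_8b7eba_nt.ArbitraryPrimeSets
import Pool.Agent.U693.MT.Deg

/-!
# The rank conjecture over infinite multiquadratic fields generated by primes of ARBITRARY sets, and
# diophantine stability

`E_D : y² = x³ - 35 D² x - 98 D³` is the quadratic twist by `D` of `X_0(49)`, `D` a squarefree product of
primes `≡ 1 mod 4`. For a set `T` of primes let `K_T = ℚ(√(p q) : p, q ∈ T)`; the degree is `2 ^ (#T - 1)`,
and infinite if `T` is infinite. `Stable D T` says: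

* the equation `y² = x³ - 35 D² x - 98 D³` has exactly one solution in the (possibly infinite) field
  `K_T`, the point `(7 D, 0)` of order two: nothing is gained from `ℚ` to `K_T`;
* the rank part of the conjecture holds, with order and rank `0`, for `E_D` over ALL the number fields
  contained in `K_T`;
* for all the products `M` of an even number of elements of `T` the group `E_{D M}(ℚ)` is finite,
  `Ш(E_{D M}/ℚ)[2^∞] = 0` and `L(E_{D M}, 1) ≠ 0`.

Call a prime `p ≡ 1 mod 4` admissible for `D` if `-7 D²` is not a fourth power modulo `p`. Let `E_D(ℚ)` be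
finite and `Ш(E_D/ℚ)[2] = 0` (for instance `D = 1`).

* INFINITE SETS: let `S` be ANY infinite set of primes `≡ 1 mod 4`. There is an infinite `T ⊆ S` such that
  `Stable D T` if and only if infinitely many primes of `S` are admissible for `D`. So every infinite set
  of admissible primes, however thin, contains the primes of an infinite multiquadratic field over which
  `E_D` has exactly two points, and over all the number fields of which the conjecture is true.
* FINITE SETS: if `S` is ANY finite set of admissible primes with at least `N = 2 ^ (2 k + ω(D) + 1)`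
  elements, then `Stable D T` for at least `(|S| choose k) / (N choose k)` of the `k`-subsets `T` of `S`, a
  positive proportion of the fields of degree `2 ^ (k - 1)` of this kind, which does not depend on `S`.

Proof. The extension of a nonsingular matrix over `𝔽₂` by homogeneous sets of primes and the theorem of
Ramsey (`MP_8b7eba_nt/ArbitraryPrimeSets`) give `T` with the third property. The `L`-function over a field
in `K_T` is the product of those of the twists by EVEN products (the characters of the field; `U693/MT/Ev`,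
after `U80/MQ`), and the rank is the sum. New is also the torsion: there are no points of odd order over
`ℚ` on `E_c`, `3 ∤ c` (reduction modulo `3` and pigeonhole, third division polynomial; `U693/MT/Tor`), hence
none over multiquadratic fields (`U693/MT/Qf`); `√7`, `√-7` are not in `K_T`, so `(7 D, 0)` is not divisible
by two and is the only point of order two (`U693/MT/Two`).
-/

set_option autoImplicit false

open scoped Classical

open WeierstrassCurve NumberField IsDedekindDomain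

namespace Pool.Agent.Results.MP_ae0bd0_nt.ArbitraryMultiquadraticTowers

open Pool.Agent.Results.MP_8b7eba_nt.ArbitraryPrimeSets (A B Class TrivialTwo Good Admissible)

/-- the curve `y² = x³ - 35 D² x - 98 D³` over `K` -/
def curve (D : ℕ) (K : Type) [Field K] : WeierstrassCurve K :=
  { a₁ := 0, a₂ := 0, a₃ := 0, a₄ := ((A D : ℤ) : K), a₆ := ((B D : ℤ) : K) }

/-- `a_v = q_v + 1 - #E(k_v) = q_v - #{(x, y) ∈ k_v² : y² = x³ + a x + b}` -/
noncomputable def trace {K : Type} [Field K] [NumberField K] (a b : ℤ)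
    (v : HeightOneSpectrum (𝓞 K)) : ℤ :=
  ((Ideal.absNorm v.asIdeal : ℕ) : ℤ) -
    ((Nat.card {x : (𝓞 K ⧸ v.asIdeal) × (𝓞 K ⧸ v.asIdeal) //
      x.2 ^ 2 = x.1 ^ 3 + (a : 𝓞 K ⧸ v.asIdeal) * x.1 + (b : 𝓞 K ⧸ v.asIdeal)} : ℕ) : ℤ)

/-- the Euler factor at `v` of `y² = x³ + a x + b`; it is `1` at the places that divide
`2 (4 a³ + 27 b²)` -/
noncomputable def factor {K : Type} [Field K] [NumberField K] (a b : ℤ) (s : ℂ)
    (v : HeightOneSpectrum (𝓞 K)) : ℂ :=
  if ((2 * (4 * a ^ 3 + 27 * b ^ 2) : ℤ) : 𝓞 K) ∈ v.asIdeal then 1 else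
    (1 - ((trace a b v : ℤ) : ℂ) * ((Ideal.absNorm v.asIdeal : ℕ) : ℂ) ^ (-s)
      + ((Ideal.absNorm v.asIdeal : ℕ) : ℂ) ^ (1 - 2 * s))⁻¹

/-- the rank part of the conjecture for `E_D` over `K`, with order and rank `0`: `E_D(K)` is finite, the
Euler product (without the factors at the places that divide `2 (4 A³ + 27 B²)`) is an entire function `Λ`,
the order of `Λ` at `1` is the rank of `E_D(K)`, and both are `0` -/
def RankZero (D : ℕ) (K : Type) [Field K] [NumberField K] : Prop :=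
  Finite (curve D K).toAffine.Point ∧ Module.finrank ℤ (curve D K).toAffine.Point = 0 ∧
    ∃ Λ : ℂ → ℂ, Differentiable ℂ Λ ∧
      (∀ s : ℂ, (3 : ℝ) / 2 < s.re → HasProd (factor (K := K) (A D) (B D) s) (Λ s)) ∧
      analyticOrderAt Λ 1 = ((Module.finrank ℤ (curve D K).toAffine.Point : ℕ) : ℕ∞) ∧ Λ 1 ≠ 0

/-- the field `ℚ(√(p q) : p, q ∈ T)` -/
noncomputable def SqField (T : Set ℕ) : IntermediateField ℚ ℂ :=
  IntermediateField.adjoin ℚ {z : ℂ | ∃ p ∈ T, ∃ q ∈ T, z ^ 2 = (p : ℂ) * (q : ℂ)}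

/-- The equation has only the solution `(7 D, 0)` in `SqField T`; the conjecture holds, with order and rank
`0`, over all the number fields in `SqField T`; and the twists of `E_D` over `ℚ` by the products of an even
number of elements of `T` have finitely many points, `Ш[2^∞] = 0` and `L(1) ≠ 0`. -/
def Stable (D : ℕ) (T : Set ℕ) : Prop :=
  (∀ x y : SqField T, y ^ 2 = x ^ 3 - 35 * (D : SqField T) ^ 2 * x - 98 * (D : SqField T) ^ 3 ↔
    x = 7 * (D : SqField T) ∧ y = 0) ∧
  (∀ K : IntermediateField ℚ ℂ, K ≤ SqField T → FiniteDimensional ℚ K →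
    ∃ _ : NumberField K, RankZero D K) ∧
  ∀ U : Finset ℕ, (U : Set ℕ) ⊆ T → Even U.card → Good (D * ∏ p ∈ U, p)

section proof

open Pool.Agent.R413.SQ
open Pool.Agent.Results.MP_8b7eba_nt.ArbitraryPrimeSets (tt_iff ndvd ad_of good_mul inf_part sym_all
  one_part)
open Pool.Agent.Results.MP_4a9ea6_nt.TwoPartTwistsX49 (Adm)
open Pool.Agent.U693.X49 (count hom_fin gd_hom Hom Ad)
open Pool.Agent.U693.MT
open Pool.Agent.U80.MQ (tc tw NZ)
open Pool.Agent.R413.SQ.BOX (nr_self)

theorem tw_eq {D M : ℕ} (h : Nat.Coprime M D) : tw M D = D * M := by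
  unfold Pool.Agent.U80.MQ.tw
  rw [h.gcd_eq_one, one_pow, Nat.div_one, mul_comm]

theorem coe_eq {K : IntermediateField ℚ ℂ} (D : ℕ) (x y : K) :
    (y ^ 2 = x ^ 3 - 35 * (D : K) ^ 2 * x - 98 * (D : K) ^ 3) ↔
      ((y : ℂ) ^ 2 = (x : ℂ) ^ 3 - 35 * (D : ℂ) ^ 2 * (x : ℂ) - 98 * (D : ℂ) ^ 3) := by
  have h35 : ((35 : K) : ℂ) = 35 := map_ofNat (algebraMap K ℂ) 35
  have h98 : ((98 : K) : ℂ) = 98 := map_ofNat (algebraMap K ℂ) 98
  rw [Subtype.ext_iff]
  push_cast
  rw [h35, h98]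

theorem coe_eq2 {K : IntermediateField ℚ ℂ} (D : ℕ) (x : K) :
    x = 7 * (D : K) ↔ (x : ℂ) = 7 * (D : ℂ) := by
  have h7 : ((7 : K) : ℂ) = 7 := map_ofNat (algebraMap K ℂ) 7
  rw [Subtype.ext_iff]
  push_cast
  rw [h7]

theorem rankZero_of {D : ℕ} {K : Type} [Field K] [NumberField K]
    (hfin : Finite (curve D K).toAffine.Point) {G : ℂ → ℂ} (g1 : Differentiable ℂ G)
    (g2 : ∀ s : ℂ, (3 : ℝ) / 2 < s.re → HasProd (factor (K := K) (A D) (B D) s) (G s))
    (g3 : G 1 ≠ 0) : RankZero D K := by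
  have hrk : Module.finrank ℤ (curve D K).toAffine.Point = 0 := Pool.Agent.U80.MQ.finrank_fin
  refine ⟨hfin, hrk, G, g1, g2, ?_, g3⟩
  rw [hrk]
  exact (g1.analyticAt 1).analyticOrderAt_eq_zero.2 g3

theorem stable_of {D : ℕ} (hA : Adm D) {T : Set ℕ}
    (hT : ∀ p ∈ T, p.Prime ∧ p % 4 = 1 ∧ ¬ p ∣ D)
    (h : ∀ U : Finset ℕ, (U : Set ℕ) ⊆ T → Even U.card → Good (D * ∏ p ∈ U, p)) : Stable D T := by
  have hD0 : D ≠ 0 := hA.1.ne_zero
  have hD3 : ¬ 3 ∣ D := by
    intro h3
    have := hA.2 3 (Nat.mem_primeFactors.2 ⟨Nat.prime_three, h3, hD0⟩)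
    omega
  have hco : ∀ U : Finset ℕ, (U : Set ℕ) ⊆ T → Nat.Coprime (∏ p ∈ U, p) D := by
    intro U hU
    refine Nat.Coprime.prod_left fun p hp => ?_
    have h1 := hT p (hU (Finset.mem_coe.2 hp))
    exact (h1.1.coprime_iff_not_dvd).2 h1.2.2
  have hfin : ∀ U : Finset ℕ, (U : Set ℕ) ⊆ T → Even U.card →
      Finite (tc (tw (∏ q ∈ U, q) D) ℚ).toAffine.Point := by
    intro U hU hUe
    rw [tw_eq (hco U hU)]
    exact (h U hU hUe).1
  have hNZ : ∀ U : Finset ℕ, (U : Set ℕ) ⊆ T → Even U.card → NZ (tw (∏ q ∈ U, q) D) := by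
    intro U hU hUe
    rw [tw_eq (hco U hU)]
    obtain ⟨-, F, f1, f2, f3⟩ := (h U hU hUe).2.2
    exact ⟨F, f1, fun s hs => f2 s hs, f3⟩
  have hPP : ∀ P : Finset ℕ, (P : Set ℕ) ⊆ T → ∀ q ∈ P, q.Prime ∧ q % 4 = 1 := fun P hP q hq =>
    ⟨(hT q (hP (Finset.mem_coe.2 hq))).1, (hT q (hP (Finset.mem_coe.2 hq))).2.1⟩
  refine ⟨fun x y => ⟨fun hE => ?_, ?_⟩, fun K hK hfd => ?_, h⟩
  · obtain ⟨P, hP, hx, hy⟩ := mem_KE (T := T) x.2 y.2
    have e0 := (coe_eq (K := SqField T) D x y).1 hE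
    have h1 := (finK (hPP P hP) hD0 hD3
      (fun U hU hUe => hfin U ((Finset.coe_subset.2 hU).trans hP) hUe) (OmE P) le_rfl).2.2
      ⟨x, hx⟩ ⟨y, hy⟩ ((coe_eq (K := OmE P) D ⟨x, hx⟩ ⟨y, hy⟩).2 e0)
    have e1 := (coe_eq2 (K := OmE P) D ⟨x, hx⟩).1 h1.1
    exact ⟨(coe_eq2 (K := SqField T) D x).2 e1,
      Subtype.ext (congrArg (fun z : OmE P => (z : ℂ)) h1.2)⟩
  · rintro ⟨rfl, rfl⟩
    ring
  · obtain ⟨P, hP, hKP⟩ := sub_KE (T := T) K hK
    have hN : NumberField K := { to_charZero := inferInstance, to_finiteDimensional := hfd }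
    have h1 : Finite (curve D K).toAffine.Point := (finK (hPP P hP) hD0 hD3
      (fun U hU hUe => hfin U ((Finset.coe_subset.2 hU).trans hP) hUe) K hKP).1
    obtain ⟨G, g1, g2, g3⟩ := lf_KE P (hPP P hP) hA.1
      (fun U hU hUe => hNZ U ((Finset.coe_subset.2 hU).trans hP) hUe) K hKP
    exact ⟨hN, rankZero_of h1 g1 (fun s hs => g2 s hs) g3⟩

theorem fin_part {D : ℕ} (hD : Adm D) (hT : TrivialTwo D) (k : ℕ) (S : Finset ℕ)
    (hS : ∀ p ∈ S, Admissible D p) (hc : 2 ^ (2 * k + D.primeFactors.card + 1) ≤ S.card) :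
    S.card.choose k ≤ (2 ^ (2 * k + D.primeFactors.card + 1)).choose k *
      ((S.powersetCard k).filter fun T : Finset ℕ => Stable D (T : Set ℕ)).card := by
  refine count S k _ (fun T : Finset ℕ => Stable D (T : Set ℕ)) ?_ hc ?_
  · calc k ≤ 2 ^ k := Nat.lt_two_pow_self.le
      _ ≤ _ := Nat.pow_le_pow_right (by norm_num) (by omega)
  · intro Q hQ hQN
    obtain ⟨T, hT1, hTk, hH⟩ := hom_fin D.primeFactors Q k
      (fun p hp q hq => sym_all ⟨(hS p (hQ hp)).1, (hS p (hQ hp)).2.1⟩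
        ⟨(hS q (hQ hq)).1, (hS q (hQ hq)).2.1⟩) hQN.ge
    have hadm : ∀ p ∈ T, Admissible D p := fun p hp => hS p (hQ (hT1 hp))
    refine ⟨T, hT1, hTk, stable_of hD (fun p hp => ?_) fun U hU hUe => ?_⟩
    · have h1 := hadm p (Finset.mem_coe.1 hp)
      exact ⟨h1.1, h1.2.1, ndvd h1⟩
    · have hUT : U ⊆ T := Finset.coe_subset.1 hU
      refine good_mul hD (fun p hp => hadm p (hUT hp)) (gd_hom nr_self
        (fun q hq => ad_of hD (hadm q (hUT hq))) ⟨fun q hq r hr => hH.col q (hUT hq) r (hUT hr),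
          fun p hp q hq r hr s hs => hH.pr p (hUT hp) q (hUT hq) r (hUT hr) s (hUT hs)⟩ hUe
          ((tt_iff hD).1 hT))

theorem inf_stable {D : ℕ} (hD : Adm D) (hT : TrivialTwo D) (S : Set ℕ)
    (hS : ∀ p ∈ S, p.Prime ∧ p % 4 = 1) :
    (∃ T ⊆ S, T.Infinite ∧ Stable D T) ↔ {p ∈ S | Admissible D p}.Infinite := by
  rw [← inf_part hD hT S hS]
  constructor
  · rintro ⟨T, h1, h2, h3⟩
    exact ⟨T, h1, h2, h3.2.2⟩
  · rintro ⟨T, h1, h2, h3⟩
    refine ⟨T \ (D.primeFactors : Set ℕ), fun p hp => h1 hp.1, h2.sdiff (Finset.finite_toSet _),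
      stable_of hD (fun p hp => ?_) fun U hU hUe => h3 U (fun p hp => (hU hp).1) hUe⟩
    have h4 := hS p (h1 hp.1)
    refine ⟨h4.1, h4.2, fun h5 => hp.2 ?_⟩
    exact Finset.mem_coe.2 (Nat.mem_primeFactors.2 ⟨h4.1, h5, hD.1.ne_zero⟩)

end proof

theorem result :
    Class 1 ∧ TrivialTwo 1 ∧
    (∀ D : ℕ, Class D → TrivialTwo D →
      -- every finite set of admissible primes
      (∀ (k : ℕ) (S : Finset ℕ), (∀ p ∈ S, Admissible D p) →
        2 ^ (2 * k + D.primeFactors.card + 1) ≤ S.card →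
        S.card.choose k ≤ (2 ^ (2 * k + D.primeFactors.card + 1)).choose k *
          ((S.powersetCard k).filter fun T : Finset ℕ => Stable D (T : Set ℕ)).card) ∧
      -- every infinite set of primes
      (∀ S : Set ℕ, (∀ p ∈ S, p.Prime ∧ p % 4 = 1) →
        ((∃ T ⊆ S, T.Infinite ∧ Stable D T) ↔ {p ∈ S | Admissible D p}.Infinite))) ∧
    -- the degrees of the fields
    (∀ T : Finset ℕ, T.Nonempty → (∀ p ∈ T, p.Prime) →
      Module.finrank ℚ (SqField (T : Set ℕ)) = 2 ^ (T.card - 1)) ∧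
    ∀ T : Set ℕ, T.Infinite → (∀ p ∈ T, p.Prime) → ¬ FiniteDimensional ℚ (SqField T) :=
  ⟨⟨squarefree_one, fun p hp => by simp at hp⟩,
    Pool.Agent.Results.MP_8b7eba_nt.ArbitraryPrimeSets.one_part,
    fun _ hD hT => ⟨fun k S hS hc => fin_part hD hT k S hS hc, fun S hS => inf_stable hD hT S hS⟩,
    fun _ hne hp => Pool.Agent.U693.MT.deg_OmE hp hne,
    fun _ hi hp => Pool.Agent.U693.MT.KE_inf hp hi⟩

end Pool.Agent.Results.MP_ae0bd0_nt.ArbitraryMultiquadraticTowers
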