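import Mathlib
import Pool.Agent.U974.TW.Fld4

/-!
# The rank conjecture over the fields generated by the square roots of prime tuples, for a positive proportion of
# all tuples of shifts

`E_D : y² = x³ - 35 D² x - 98 D³` is the twist of `X_0(49)` by `D`; `T` is ANY finite set of primes `≡ 1 mod 4`
(for instance the empty set) and `N` any number prime to `7`.

There are an auxiliary prime `r ≡ 1 mod 4 N`, inert in `ℚ(√-7)`, and a bound `B` such that in EVERY set `W` of at
least `δ x` integers of `[0, x]` at least the proportion `c(δ) > 0` of all the `x ^ m` vectors `h_1 < ... < h_m` have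
their entries in `W` and satisfy: for EVERY graph `G` with the vertices `1, ..., m` there are `{d₀, d₁} = {1, r}`
such that for infinitely many `n` the numbers `p_i = n + h_i` are primes, `1` modulo `28 N`, at most `B` primes lie
at distance at most `Y` from `n` (for every `Y`), and, for ALL `S ⊆ {1, ..., m}` and `U ⊆ T`:

* FIELDS. If every vertex of `S` has at most one neighbour in `S` (for instance for the graph without edges), then
  for all `J ⊆ T` with `E_M(ℚ)` finite and `Ш(E_M/ℚ)[2] = 0` for the `M = ∏ (U ∆ V)`, `V ⊆ J`, over ALL number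
  fields `K ⊆ ℚ(√p_i : i ∈ S; √q : q ∈ J)` and for ALL `D = d₀ ∏ U ∏_{S'} p_i`, `S' ⊆ S`, the rank conjecture holds
  for `E_D` over `K` with order and rank `0`, and the 2-primary part of `Ш(E_D/K)` is killed by `[K : ℚ]`.
* `E_D(ℚ)`, `D = d₀ ∏ U ∏_S p_i`, is finite with `Ш[2] = 0` if AND ONLY IF `E_{∏ U}` has this property and the
  number of the rooted spanning forests of `G[S]` is odd; for `d₁` instead of `d₀`, `S` nonempty, it NEVER has it.

For `U = J = ∅` and the graph without edges: for a positive proportion of all the `m`-tuples `h` there are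
infinitely many prime tuples `(n + h_1, ..., n + h_m)` such that the rank conjecture holds, with order and rank `0`,
for `E_1` or for `E_r` over all the number fields in `ℚ(√(n + h_1), ..., √(n + h_m))`.

Proof. `Pool/Agent/U974/PP`: for a random tuple of `K` shifts, `K` large, every difference has a private large
prime factor to the first power; modulo these primes the class of `n` is chosen such that the symbols between the
primes which the theorem of Maynard and Tao finds are those of a Paley graph modulo a prime `Q`, whatever the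
primes are. A positive proportion of the points of the Paley graph occurs, with one value of the quartic symbol of
`-7` (which is not a congruence condition), so every pattern of symbols; by Ramsey's theorem one `m`-subtuple
serves all patterns, and averaging gives a positive proportion of all `m`-tuples. The inert prime `r` is a
nonresidue modulo the new primes and exchanges the two values of the quartic symbol. The linear system of the
2-descent splits into that of `U ∆ V` and that of a subgraph of `G` (`U974/TW/Fld1`, `Fld4`); for matchings all the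
systems are nonsingular. The passage from the twists to the fields is helper80's `U80/MQ` (with helper120's
`U120/MF`).
-/

set_option autoImplicit false

open scoped Classical

open WeierstrassCurve NumberField IsDedekindDomain
open scoped symmDiff

namespace Pool.Agent.Results.MP_ae0bd0_nt.FieldsOfPrimeTuples

open Pool.Agent.TH841.NF.D (Sha)

/-- the coefficient of `x` -/
def A (D : ℕ) : ℤ := -35 * (D : ℤ) ^ 2

/-- the constant coefficient -/
def B (D : ℕ) : ℤ := -98 * (D : ℤ) ^ 3

/-- the curve `y² = x³ - 35 D² x - 98 D³` over `K` -/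
def curve (D : ℕ) (K : Type) [Field K] : WeierstrassCurve K :=
  { a₁ := 0, a₂ := 0, a₃ := 0, a₄ := ((A D : ℤ) : K), a₆ := ((B D : ℤ) : K) }

/-- `E_D(ℚ)` is finite and `Ш(E_D/ℚ)` has no element of order two -/
def TrivialTwo (D : ℕ) : Prop :=
  Finite (curve D ℚ).toAffine.Point ∧ ∀ x : Sha (curve D ℚ), 2 • x = 0 → x = 0

/-- `a_v = q_v + 1 - #E(k_v) = q_v - #{(x, y) ∈ k_v² : y² = x³ + a x + b}` -/
noncomputable def trace {K : Type} [Field K] [NumberField K] (a b : ℤ)
    (v : HeightOneSpectrum (𝓞 K)) : ℤ :=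
  ((Ideal.absNorm v.asIdeal : ℕ) : ℤ) -
    ((Nat.card {x : (𝓞 K ⧸ v.asIdeal) × (𝓞 K ⧸ v.asIdeal) //
      x.2 ^ 2 = x.1 ^ 3 + (a : 𝓞 K ⧸ v.asIdeal) * x.1 + (b : 𝓞 K ⧸ v.asIdeal)} : ℕ) : ℤ)

/-- the Euler factor at `v` of `y² = x³ + a x + b`; it is `1` at the places that divide
`2 (4 a³ + 27 b²)` -/
noncomputable def factor {K : Type} [Field K] [NumberField K] (a b : ℤ) (s : ℂ)
    (v : HeightOneSpectrum (𝓞 K)) : ℂ :=
  if ((2 * (4 * a ^ 3 + 27 * b ^ 2) : ℤ) : 𝓞 K) ∈ v.asIdeal then 1 else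
    (1 - ((trace a b v : ℤ) : ℂ) * ((Ideal.absNorm v.asIdeal : ℕ) : ℂ) ^ (-s)
      + ((Ideal.absNorm v.asIdeal : ℕ) : ℂ) ^ (1 - 2 * s))⁻¹

/-- the rank part of the conjecture for `E_D` over `K`, with order and rank `0`: `E_D(K)` is finite, the
Euler product (without the factors at the places that divide `2 (4 A³ + 27 B²)`) is an entire function `Λ`,
the order of `Λ` at `1` is the rank of `E_D(K)`, and both are `0` -/
def RankZero (D : ℕ) (K : Type) [Field K] [NumberField K] : Prop :=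
  Finite (curve D K).toAffine.Point ∧ Module.finrank ℤ (curve D K).toAffine.Point = 0 ∧
    ∃ Λ : ℂ → ℂ, Differentiable ℂ Λ ∧
      (∀ s : ℂ, (3 : ℝ) / 2 < s.re → HasProd (factor (K := K) (A D) (B D) s) (Λ s)) ∧
      analyticOrderAt Λ 1 = ((Module.finrank ℤ (curve D K).toAffine.Point : ℕ) : ℕ∞) ∧ Λ 1 ≠ 0

/-- the elements of `Ш(E_D/K)` of order a power of two are killed by `[K : ℚ]` -/
def ShaKilled (D : ℕ) (K : Type) [Field K] [NumberField K] : Prop :=
  ∀ (k : ℕ) (x : Sha (curve D K)), 2 ^ k • x = 0 → Module.finrank ℚ K • x = 0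

/-- the field generated by the square roots of the elements of `J` -/
noncomputable def Roots (J : Finset ℕ) : IntermediateField ℚ ℂ :=
  IntermediateField.adjoin ℚ {z : ℂ | ∃ q ∈ J, z ^ 2 = (q : ℂ)}

/-- the determinant of the matrix `1 + Laplacian` of the subgraph of `G` induced on `S` is odd -/
def OddForests {m : ℕ} (G : SimpleGraph (Fin m)) (S : Finset (Fin m)) : Prop :=
  ((1 : Matrix (S : Set (Fin m)) (S : Set (Fin m)) (ZMod 2)) +
    (G.induce (S : Set (Fin m))).lapMatrix (ZMod 2)).det ≠ 0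

/-- every vertex of `S` has at most one neighbour in `S` -/
def Matching {m : ℕ} (G : SimpleGraph (Fin m)) (S : Finset (Fin m)) : Prop :=
  ∀ i ∈ S, ∀ j ∈ S, ∀ k ∈ S, G.Adj i j → G.Adj i k → j = k

/-- the property of the tuple `h`: for every graph `G` there are `{d₀, d₁} = {1, r}` such that for infinitely many
`n` the numbers `n + h i` are primes, `1` modulo `28 N`, with at most `B` primes at distance at most `Y` from `n`
(for every `Y`), and the conclusions hold -/
def AllFields (T : Finset ℕ) (N r B : ℕ) {m : ℕ} (h : Fin m → ℕ) : Prop :=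
  ∀ G : SimpleGraph (Fin m), ∃ d₀ d₁ : ℕ, (d₀ = 1 ∧ d₁ = r ∨ d₀ = r ∧ d₁ = 1) ∧ ∀ Y : ℕ,
    {n : ℕ | (∀ i, (n + h i).Prime ∧ n + h i ≡ 1 [MOD 28 * N]) ∧
      {p : ℕ | p.Prime ∧ |(p : ℤ) - n| ≤ Y}.ncard ≤ B ∧
      ∀ (S : Finset (Fin m)) (U : Finset ℕ), U ⊆ T →
        (Matching G S → ∀ J, J ⊆ T → (∀ V, V ⊆ J → TrivialTwo (∏ q ∈ U ∆ V, q)) →
          ∀ K : IntermediateField ℚ ℂ, K ≤ Roots (J ∪ S.image (fun i => n + h i)) →
            ∃ _ : NumberField K, ∀ S', S' ⊆ S →
              RankZero ((∏ q ∈ U, q) * (d₀ * ∏ i ∈ S', (n + h i))) K ∧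
              ShaKilled ((∏ q ∈ U, q) * (d₀ * ∏ i ∈ S', (n + h i))) K) ∧
        (TrivialTwo ((∏ q ∈ U, q) * (d₀ * ∏ i ∈ S, (n + h i))) ↔
          TrivialTwo (∏ q ∈ U, q) ∧ OddForests G S) ∧
        (S.Nonempty → ¬ TrivialTwo ((∏ q ∈ U, q) * (d₁ * ∏ i ∈ S, (n + h i))))}.Infinite

section proof

open Pool.Agent.U974.TW

theorem rankZero_of {D : ℕ} {K : Type} [Field K] [NumberField K]
    (hfin : Finite (curve D K).toAffine.Point) {G : ℂ → ℂ} (g1 : Differentiable ℂ G)
    (g2 : ∀ s : ℂ, (3 : ℝ) / 2 < s.re → HasProd (factor (K := K) (A D) (B D) s) (G s))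
    (g3 : G 1 ≠ 0) : RankZero D K := by
  have hrk : Module.finrank ℤ (curve D K).toAffine.Point = 0 := Pool.Agent.U80.MQ.finrank_fin
  refine ⟨hfin, hrk, G, g1, g2, ?_, g3⟩
  rw [hrk]
  exact (g1.analyticAt 1).analyticOrderAt_eq_zero.2 g3

theorem numberField {J : Finset ℕ} (K : IntermediateField ℚ ℂ) (hK : K ≤ Roots J) : NumberField K := by
  obtain ⟨n, _, _, _, _, _, _, h⟩ := Pool.Agent.U80.MQ.exists_gens K hK
  exact { to_charZero := inferInstance
          to_finiteDimensional := Module.finite_of_finrank_pos (by rw [h]; positivity) }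

theorem part_field {m : ℕ} {G : SimpleGraph (Fin m)} {f : Fin m → ℕ} {c : ZMod 2} {T : Finset ℕ} {r : ℕ}
    (h : CfgF G f c T r) {U J : Finset ℕ} (hU : U ⊆ T) (hJ : J ⊆ T)
    (hUJ : ∀ V, V ⊆ J → TrivialTwo (∏ p ∈ U ∆ V, p)) (b : Bool) (S : Finset (Fin m))
    (hS : ∀ S', S' ⊆ S → Ker G (c + if b then 1 else 0) S') (K : IntermediateField ℚ ℂ)
    (hK : K ≤ Roots (J ∪ S.image f)) :
    ∃ _ : NumberField K, ∀ S', S' ⊆ S →
      RankZero ((∏ p ∈ U, p) * ((if b then r else 1) * ∏ i ∈ S', f i)) K ∧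
      ShaKilled ((∏ p ∈ U, p) * ((if b then r else 1) * ∏ i ∈ S', f i)) K := by
  have hN : NumberField K := numberField K hK
  refine ⟨hN, fun S' hS' => ?_⟩
  obtain ⟨h1, ⟨G, g1, g2, g3⟩, h3⟩ := h.field2 hU hJ hUJ b S hS S' hS' K hK _ rfl
  exact ⟨rankZero_of h1 g1 (fun s hs => g2 s hs) g3, fun k x hx => h3 k x hx⟩

theorem trivial_one : TrivialTwo 1 := by
  have h1 := (Pool.Agent.U120.MF.tt_gd (U := (∅ : Finset ℕ))
    (fun p hp => absurd hp (Finset.notMem_empty _))).2 (by
    intro x _ p hp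
    exact absurd hp (Finset.notMem_empty _))
  rw [Finset.prod_empty] at h1
  exact h1

end proof

/-- **The rank conjecture over the fields generated by the square roots of prime tuples.** -/
theorem result (m N : ℕ) (hN : 0 < N) (h7 : N.Coprime 7) (T : Finset ℕ)
    (hT : ∀ q ∈ T, q.Prime ∧ q % 4 = 1) :
    TrivialTwo 1 ∧
    ∃ r B : ℕ, r.Prime ∧ r ≡ 1 [MOD 4 * N] ∧ r % 7 = 3 ∧ ∀ δ : ℝ, 0 < δ → ∃ c : ℝ, 0 < c ∧
      ∃ x₀ : ℕ, ∀ x : ℕ, x₀ ≤ x → ∀ W : Finset ℕ, (∀ w ∈ W, w ≤ x) → δ * x ≤ W.card →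
        c * (x : ℝ) ^ m ≤ ({h : Fin m → ℕ | StrictMono h ∧ (∀ i, h i ∈ W) ∧
          AllFields T N r B h}.ncard : ℝ) := by
  refine ⟨trivial_one, ?_⟩
  obtain ⟨r, hr1, hr2, hr3, B, hB⟩ := Pool.Agent.U974.TW.relP m N hN h7 T hT
  refine ⟨r, B, hr1, hr2, hr3, fun δ hδ => ?_⟩
  obtain ⟨c, hc, x₀, hx⟩ := hB δ hδ
  refine ⟨c, hc, x₀, fun x hxx W hW hWc => (hx x hxx W hW hWc).trans ?_⟩
  have hfin : {h : Fin m → ℕ | StrictMono h ∧ (∀ i, h i ∈ W) ∧ AllFields T N r B h}.Finite := by
    refine (Fintype.piFinset (fun _ : Fin m => W)).finite_toSet.subset ?_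
    rintro h ⟨-, h2, -⟩
    rw [Finset.mem_coe, Fintype.mem_piFinset]
    exact h2
  have hsub : {h : Fin m → ℕ | StrictMono h ∧ (∀ i, h i ∈ W) ∧ Pool.Agent.U974.TW.AllCfg N B T r h} ⊆
      {h : Fin m → ℕ | StrictMono h ∧ (∀ i, h i ∈ W) ∧ AllFields T N r B h} := by
    rintro h ⟨g1, g2, g3⟩
    refine ⟨g1, g2, fun G => ?_⟩
    obtain ⟨c, hc⟩ := g3 G
    obtain ⟨β, hβ1, hβ2⟩ := Pool.Agent.U974.TW.exists_flip c
    refine ⟨if β then r else 1, if (!β) then r else 1, ?_, fun Y => (hc Y).mono ?_⟩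
    · cases β
      · exact Or.inl ⟨rfl, rfl⟩
      · exact Or.inr ⟨rfl, rfl⟩
    · rintro n ⟨k1, k2, k3⟩
      refine ⟨fun i => ⟨k1.prime i, k2 i⟩, k3, fun S U hU => ⟨fun ho J hJ hUJ K hK => ?_, ?_, fun hS => ?_⟩⟩
      · refine part_field k1 hU hJ hUJ β S (fun S' hS' => ?_) K hK
        rw [hβ1]
        exact Pool.Agent.U974.TW.Match.ker (Pool.Agent.U974.TW.Match.mono ho hS')
      · have h4 := k1.tt hU β S
        rw [hβ1, Pool.Agent.U974.TW.ker_iff] at h4
        exact h4
      · have h4 := k1.tt hU (!β) S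
        rw [hβ2] at h4
        exact fun h5 => Pool.Agent.U974.TW.ker_zero G hS (h4.1 h5).2
  exact_mod_cast Set.ncard_le_ncard hsub hfin

end Pool.Agent.Results.MP_ae0bd0_nt.FieldsOfPrimeTuples
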