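import Pool.Agent.U707.TW.Eg
import Pool.Agent.U707.TW.Inf
import Pool.Agent.U695.XG.Dens
import Pool.Agent.U695.XG.Crt

/-!
# The rank conjecture over all number fields in explicit infinite extensions of `ℚ(i)`, for exactly
# `41.94 %` of the curves `y² = x³ + D x`

`K` is a number field with an isomorphism `e` of the ring `ℤ[i]` of Gaussian integers with its ring
of integers (so `K = ℚ(i)`), and `E_d : y² = x³ + d x`.

Let `D` be a Gaussian integer which is primary (`1` modulo `2 + 2i`), squarefree, of norm `13` modulo `16`, and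
*indecomposable*: not the product of two primary `d, d' ≠ 1` which are squares modulo each other. Call `M` *admissible*
for `D` if it is primary, squarefree, of norm `1` modulo `8`, and all its prime factors divide `D` or are primes
modulo which `D` is not a square. Let `Ω(D)` be the field generated over `K` by the square roots of ALL admissible `M`.

* `Ω(D)` is an infinite extension of `K`, and `E_D(Ω(D))` has exactly two elements, the point at infinity
  and `(0, 0)`: nothing is gained from `K` to `Ω(D)`.
* For ALL number fields `F` with `K ⊆ F ⊆ Ω(D)`: `E_D(F)` has exactly two elements, the Euler product of `E_D/F` over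
  the places that do not divide `2 D` is an entire function, and it does not vanish at `s = 1`; so the order is
  the rank, and both are `0`.
* The same over `K` for all the quartic twists `y² = x³ + D M² x`, `M` admissible (in general not squarefree).
* Ordered by norm, exactly the share `c = ∏_{i ≥ 0} (1 - 2^{-(2i+1)}) = 0.4194...` of the primary squarefree `D` of norm
  `13` modulo `16` is indecomposable.

The criterion for `E_D` over `K` itself is in the starting library (`MP_9ab903_nt.TwoPartQuarticProportion`), the exact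
share is from `U695/XG` (helper695). New (`Pool/Agent/U707/TW`): the 2-adic valuation of the central value of
`y² = x³ + B x` for `B` with prime factors of multiplicity `1, 2, 3` from the general congruence of `Y699`,
hence the non-vanishing for `B = D M²`; the Euler product and reciprocity for these `B`; the Selmer group (local images at
the primes of multiplicity two and three), and the points; the towers: the characters of `F/K` are those of the
admissible `M` (Kummer theory of `U81/MQ`), the product of the `L`-functions at the ramified places, and the points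
over `F` from the isotypic parts, since `√D, √(-D) ∉ Ω(D)`.
-/

set_option autoImplicit false

open scoped Classical

namespace Pool.Agent.Results.MP_ae0bd0_nt.InfiniteTowersQuarticTwists

open Filter NumberField IsDedekindDomain

/-- `D ≡ 1 mod 2 + 2i`. -/
def Primary (D : GaussianInt) : Prop := (⟨2, 2⟩ : GaussianInt) ∣ D - 1

/-- `a` is a square modulo `m` -/
def SquareModulo (a m : GaussianInt) : Prop := ∃ b : GaussianInt, m ∣ a - b ^ 2

/-- `D` is not a product of two primary elements different from `1` which are squares modulo each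
other -/
def Indecomposable (D : GaussianInt) : Prop :=
  ∀ d d' : GaussianInt, Primary d → Primary d' → D = d * d' → SquareModulo d' d →
    SquareModulo d d' → d = 1 ∨ d' = 1

/-- the primary squarefree Gaussian integers with norm `13` modulo `16` -/
def Class : Set GaussianInt := {D | Primary D ∧ Squarefree D ∧ D.norm % 16 = 13}

/-- `M` is primary and squarefree, of norm `1` modulo `8`, and `D` is not a square modulo the prime factors of
`M` that do not divide `D` -/
def Admissible (D M : GaussianInt) : Prop :=
  Primary M ∧ Squarefree M ∧ M.norm % 8 = 1 ∧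
    ∀ π : GaussianInt, Prime π → π ∣ M → π ∣ D ∨ ¬ SquareModulo D π

/-- the curve `y² = x³ + d x` -/
def curve {F : Type} [Field F] (d : F) : WeierstrassCurve F :=
  { a₁ := 0, a₂ := 0, a₃ := 0, a₄ := d, a₆ := 0 }

/-- the number of the solutions of `y² = x³ + d x` in a ring -/
noncomputable def solutions {R : Type} [CommRing R] (d : R) : ℕ :=
  Nat.card {p : R × R // p.2 ^ 2 = p.1 ^ 3 + d * p.1}

/-- `q_w - #{(x, y) ∈ k_w² : y² = x³ + d x}`, the trace of Frobenius of `y² = x³ + d x` at `w` -/
noncomputable def trace {F : Type} [Field F] [NumberField F] (d : 𝓞 F) (w : HeightOneSpectrum (𝓞 F)) :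
    ℤ :=
  ((Ideal.absNorm w.asIdeal : ℕ) : ℤ) - ((solutions (Ideal.Quotient.mk w.asIdeal d) : ℕ) : ℤ)

/-- the Euler factor of `y² = x³ + d x` at `w`; it is `1` at the places that divide `2 d` -/
noncomputable def factor {F : Type} [Field F] [NumberField F] (d : 𝓞 F) (s : ℂ)
    (w : HeightOneSpectrum (𝓞 F)) : ℂ :=
  if 2 * d ∈ w.asIdeal then 1 else
    (1 - ((trace d w : ℤ) : ℂ) * ((Ideal.absNorm w.asIdeal : ℕ) : ℂ) ^ (-s)
      + ((Ideal.absNorm w.asIdeal : ℕ) : ℂ) ^ (1 - 2 * s))⁻¹

/-- the curve `y² = x³ + d x` has exactly two points over `F` -/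
def TwoPoints {F : Type} [Field F] (d : F) : Prop := Nat.card (curve d).toAffine.Point = 2

/-- the rank of the group of the points of `y² = x³ + d x` over `F` -/
noncomputable def rank {F : Type} [Field F] (d : F) : ℕ :=
  Module.finrank ℤ (curve d).toAffine.Point

/-- `Λ` is the analytic continuation to `ℂ` of the Euler product of `y² = x³ + d x` over `F` without the factors
at the places that divide `2 d` -/
def IsL {F : Type} [Field F] [NumberField F] (d : 𝓞 F) (Λ : ℂ → ℂ) : Prop :=
  Differentiable ℂ Λ ∧ ∀ s : ℂ, (3 : ℝ) / 2 < s.re → HasProd (factor d s) (Λ s)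

/-- the rank part of the conjecture for `y² = x³ + d x` over `F`, with order and rank `0`: there are exactly two
points, the Euler product (without the factors at the places that divide `2 d`) is an entire function `Λ`, the order
of `Λ` at `1` is the rank, and both are `0` -/
def RankZero {F : Type} [Field F] [NumberField F] (d : 𝓞 F) : Prop :=
  TwoPoints (d : F) ∧ rank (d : F) = 0 ∧
    ∃ Λ : ℂ → ℂ, IsL d Λ ∧ analyticOrderAt Λ 1 = (rank (d : F) : ℕ∞) ∧ Λ 1 ≠ 0

/-- `z` is a square root of an admissible element -/
def IsRoot {K : Type} [Field K] [NumberField K] (e : GaussianInt ≃+* 𝓞 K) (D : GaussianInt)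
    (z : AlgebraicClosure K) : Prop :=
  ∃ M : GaussianInt, Admissible D M ∧ z ^ 2 = algebraMap K (AlgebraicClosure K) (e M)

/-- the field generated over `K = ℚ(i)` by the square roots of all admissible elements -/
noncomputable def Omega {K : Type} [Field K] [NumberField K] (e : GaussianInt ≃+* 𝓞 K)
    (D : GaussianInt) : IntermediateField K (AlgebraicClosure K) :=
  IntermediateField.adjoin K {z | IsRoot e D z}

/-- the field `F` has infinite degree over `K` -/
def InfiniteOver {K : Type} [Field K] (F : IntermediateField K (AlgebraicClosure K)) : Prop :=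
  ¬ FiniteDimensional K F

/-- `a ∈ K` as an element of the extension `F` -/
def toField {K : Type} [Field K] (F : Type) [Field F] [Algebra K F] (a : K) : F := algebraMap K F a

/-- an integer `a` of `K` as an integer of the extension `F` -/
noncomputable def toIntegers {K : Type} [Field K] [NumberField K] (F : Type) [Field F] [NumberField F]
    [Algebra K F] (a : 𝓞 K) : 𝓞 F := algebraMap (𝓞 K) (𝓞 F) a

/-- `y² = x³ + a x`, `a ∈ K`, has exactly two points over `F` -/
def TwoPointsOver {K : Type} [Field K] (F : IntermediateField K (AlgebraicClosure K)) (a : K) : Prop :=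
  TwoPoints (toField F a)

/-- `F` is a number field, and the rank conjecture, with order and rank `0`, is true for
`y² = x³ + a x` over `F` -/
def RankZeroOver {K : Type} [Field K] [NumberField K] (F : IntermediateField K (AlgebraicClosure K))
    (a : 𝓞 K) : Prop := ∃ _ : NumberField F, RankZero (toIntegers F a)

/-- the rank conjecture with order and rank `0` over all number fields `F` with `K ⊆ F ⊆ Ω(D)` -/
def OverFields {K : Type} [Field K] [NumberField K] (e : GaussianInt ≃+* 𝓞 K) (D : GaussianInt) : Prop :=
  ∀ F : IntermediateField K (AlgebraicClosure K), F ≤ Omega e D → FiniteDimensional K F →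
    RankZeroOver F (e D)

/-- the same over `K` for the quartic twists `y² = x³ + D M² x`, `M` admissible -/
def OverK {K : Type} [Field K] [NumberField K] (e : GaussianInt ≃+* 𝓞 K) (D : GaussianInt) : Prop :=
  ∀ M : GaussianInt, Admissible D M → RankZero (e (D * M ^ 2))

/-- the conclusion for `D`, for each model `K` of `ℚ(i)` -/
def Conclusion (D : GaussianInt) : Prop :=
  ∀ (K : Type) [Field K] [NumberField K] (e : GaussianInt ≃+* 𝓞 K),
    InfiniteOver (Omega e D) ∧ TwoPointsOver (Omega e D) (e D) ∧ OverFields e D ∧ OverK e D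

/-- the number of the elements of norm at most `X` of a set of Gaussian integers -/
noncomputable def count (S : Set GaussianInt) (X : ℕ) : ℕ := {D : GaussianInt | D ∈ S ∧ D.norm ≤ X}.ncard

/-- the share of the indecomposable elements of norm at most `X` in the class -/
noncomputable def share (X : ℕ) : ℝ := (count {D | D ∈ Class ∧ Indecomposable D} X : ℝ) / (count Class X : ℝ)

/-- the constant `(1 - 1/2) (1 - 1/8) (1 - 1/32) ⋯` -/
noncomputable def c : ℝ := ∏' i : ℕ, (1 - (1 / 2 : ℝ) ^ (2 * i + 1))

section proof

open Pool.Agent.U695.XG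
open Pool.Agent.U707.TW
open Pool.Agent.Y699 (PS PD PP Good Good4 SB mem_SB qr exists_PP odd_of_dvd card_pts4)
open Pool.Agent.Y715.Z (em0 em0_ne)
open Pool.Agent.K4H15.BW (tower roots)
open H385 (nrm im1)

theorem le_iff (D : GaussianInt) (X : ℕ) : D.norm ≤ X ↔ nrm D ≤ X := by
  rw [← Pool.Agent.Y699.nrm_cast D]
  exact Nat.cast_le

theorem prim_iff {D : GaussianInt} : Primary D ↔ Pool.Agent.H304R2.EC.A1.prim D :=
  (Pool.Agent.W164.RC.prim_iff_dvd D).symm

theorem ps_iff {D : GaussianInt} : PS D ↔ Primary D ∧ Squarefree D := by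
  constructor
  · rintro ⟨h1, h2⟩
    exact ⟨(Pool.Agent.W164.RC.prim_iff_dvd D).1 h1, h2⟩
  · rintro ⟨h1, h2⟩
    exact ⟨(Pool.Agent.W164.RC.prim_iff_dvd D).2 h1, h2⟩

theorem mem_class {D : GaussianInt} : D ∈ Class ↔ NSf.El {13} D := by
  rw [NSf.el13, ps_iff]
  exact ⟨fun h => ⟨⟨h.1, h.2.1⟩, h.2.2⟩, fun h => ⟨h.1.1, h.1.2, h.2⟩⟩

theorem ind_iff {D : GaussianInt} (hD : PS D) : Indecomposable D ↔ Gd (PD D) := Crt.ind_iff hD

theorem count_class (X : ℕ) : count Class X = (SS {13} X).card := by
  rw [← NSf.card_el]
  unfold count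
  congr 1
  ext D
  constructor
  · rintro ⟨h1, h2⟩
    exact ⟨(le_iff D X).1 h2, mem_class.1 h1⟩
  · rintro ⟨h1, h2⟩
    exact ⟨mem_class.2 h2, (le_iff D X).2 h1⟩

theorem count_good (X : ℕ) :
    count {D | D ∈ Class ∧ Indecomposable D} X = ((SS {13} X).filter Gd).card := by
  rw [← NSf.card_eq]
  unfold count
  congr 1
  ext D
  constructor
  · rintro ⟨⟨h1, h3⟩, h2⟩
    have h4 := mem_class.1 h1
    exact ⟨(le_iff D X).1 h2, h4, (ind_iff h4.1).1 h3⟩
  · rintro ⟨h1, h2, h3⟩
    exact ⟨⟨mem_class.2 h2, (ind_iff h2.1).2 h3⟩, (le_iff D X).2 h1⟩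

theorem good4 {D : GaussianInt} (h : D ∈ Class) (hi : Indecomposable D) : Good4 D := by
  have h1 := mem_class.1 h
  exact NSf.good4_iff.2 ⟨h1, (ind_iff h1.1).1 hi⟩

theorem sqP_iff {D M : GaussianInt} : SqP D M ↔ Admissible D M := by
  constructor
  · intro h
    obtain ⟨h1, h2⟩ := ps_iff.1 h.ps
    refine ⟨h1, h2, h.nm, fun π hπ hπM => ?_⟩
    by_contra hc
    push Not at hc
    obtain ⟨h3, b, hb⟩ := hc
    obtain ⟨π', hπ', hass⟩ := exists_PP hπ
      (odd_of_dvd hπM (Pool.Agent.H304R2.EC.A1.prim_norm_odd h.ps.prm))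
    have h4 : ¬ π' ∣ D := fun h' => h3 (hass.symm.dvd.trans h')
    apply h.ns π' hπ' (hass.dvd.trans hπM) h4
    unfold qr
    rw [if_neg h4, if_pos ⟨b, hass.dvd.trans hb⟩]
  · rintro ⟨h1, h2, h3, h4⟩
    refine ⟨ps_iff.2 ⟨h1, h2⟩, h3, fun π hπ hπM hπD hq => ?_⟩
    rcases h4 π hπ.pr hπM with h5 | h5
    · exact hπD h5
    · apply h5
      unfold qr at hq
      rw [if_neg hπD] at hq
      by_contra h6
      rw [if_neg (show ¬ ∃ b : GaussianInt, π ∣ D - b ^ 2 from h6)] at hq
      norm_num at hq

variable {K : Type} [Field K] [NumberField K] (e : GaussianInt ≃+* 𝓞 K) {D : GaussianInt}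

theorem omega_eq : Omega e D = tower (DS e D) := by
  unfold Omega tower
  congr 1
  ext z
  constructor
  · rintro ⟨M, hM, hz⟩
    exact ⟨e M, ⟨M, sqP_iff.2 hM, rfl⟩, hz⟩
  · rintro ⟨_, ⟨M, hM, rfl⟩, hz⟩
    exact ⟨M, sqP_iff.1 hM, hz⟩

theorem fin_rank {G : Type} [AddCommGroup G] [Finite G] : Module.finrank ℤ G = 0 := by
  refine Module.finrank_eq_zero_of_rank_eq_zero (rank_eq_zero_iff.2 fun x =>
    ⟨(Nat.card G : ℤ), by exact_mod_cast Nat.card_pos.ne', ?_⟩)
  rw [natCast_zsmul]
  exact card_nsmul_eq_zero'

theorem locF_eq {F : Type} [Field F] [NumberField F] (d : 𝓞 F) (s : ℂ)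
    (w : HeightOneSpectrum (𝓞 F)) : locF d s w = factor d s w := by
  unfold locF factor trace
  split_ifs
  · rfl
  · push_cast
    rfl

theorem rankZero_of {F : Type} [Field F] [NumberField F] {d : 𝓞 F}
    (h : Nat.card (curve (d : F)).toAffine.Point = 2)
    (hG : ∃ G : ℂ → ℂ, Differentiable ℂ G ∧
      (∀ s : ℂ, 3 / 2 < s.re → HasProd (locF d s) (G s)) ∧ G 1 ≠ 0) : RankZero d := by
  obtain ⟨G, g1, g2, g3⟩ := hG
  have hfin : Finite (curve (d : F)).toAffine.Point := Nat.finite_of_card_ne_zero (by omega)
  have hrk : Module.finrank ℤ (curve (d : F)).toAffine.Point = 0 := fin_rank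
  have hrk' : rank (d : F) = 0 := hrk
  refine ⟨h, hrk', G, ⟨g1, fun s hs => ?_⟩, ?_, g3⟩
  · exact (g2 s hs).congr_fun fun w => (locF_eq d s w).symm
  · rw [hrk']
    exact (g1.analyticAt 1).analyticOrderAt_eq_zero.2 g3

theorem ef4_locF (B : GaussianInt) (s : ℂ) (v : HeightOneSpectrum (𝓞 K)) :
    ef4 e B s v = locF (e B) s v := by
  unfold ef4 locF
  by_cases h : Pool.Agent.Y699.pg e v = Pool.Agent.Y699.pi1 ∨ Pool.Agent.Y699.pg e v ∣ B
  · rw [if_pos h, if_pos ((two_iff e v B).2 h)]
  · rw [if_neg h, if_neg (fun h' => h ((two_iff e v B).1 h'))]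
    rfl

theorem over_K (hg : Good4 D) {M : GaussianInt} (hM : SqP D M) : RankZero (e (D * M ^ 2)) := by
  refine rankZero_of ?_ ?_
  · refine card_pts4 (D := em0 e (D * M ^ 2)) (fun r hr => ?_) two_ne_zero
      (fun x y hxy => no_pts e hg hM hxy)
    have hM0 : em0 e M ≠ 0 := em0_ne e hM.ps.ne
    refine Pool.Agent.Y699.neg_not_sq hg e (r / em0 e M) ?_
    show (r / em0 e M) ^ 2 = -em0 e D
    rw [div_pow, hr, map_mul, map_pow]
    field_simp
  · obtain ⟨G, g1, g2, g3⟩ := tw_nonvan hg hM e
    exact ⟨G, g1, fun s hs => (g2 s hs).congr_fun fun v => (ef4_locF e _ s v).symm, g3⟩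

theorem over_F (hg : Good4 D) (F : IntermediateField K (AlgebraicClosure K))
    (hF : F ≤ tower (DS e D)) [FiniteDimensional K F] :
    RankZeroOver F (e D) := by
  have hN : NumberField F := NumberField.of_module_finite K F
  refine ⟨hN, rankZero_of ?_ (prod_F e hg F hF)⟩
  refine card_pts4 (D := algebraMap K F (em0 e D)) (fun r hr => ?_) two_ne_zero
    (fun x y hxy => pts_F e hg F hF hxy)
  refine no_sqrt_neg e hg (hF r.2) ?_
  have := congrArg (fun z : F => (z : AlgebraicClosure K)) hr
  exact this

theorem over_omega (hg : Good4 D) : TwoPointsOver (Omega e D) (e D) := by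
  unfold TwoPointsOver TwoPoints toField
  rw [omega_eq]
  refine card_pts4 (D := algebraMap K (tower (DS e D)) (em0 e D)) (fun r hr => ?_) two_ne_zero
    (fun x y hxy => pts_tower e hg hxy)
  refine no_sqrt_neg e hg r.2 ?_
  have := congrArg (fun z : tower (DS e D) => (z : AlgebraicClosure K)) hr
  exact this

end proof

open Pool.Agent.U695.XG in
/-- **Main theorem.** Let `c = ∏_{i ≥ 0} (1 - 2^{-(2i+1)})`, `0.4194 < c < 0.4195`. Ordered by norm, exactly the share `c` of
the primary squarefree Gaussian integers `D` of norm `13` modulo `16` is indecomposable. For each indecomposable `D` of this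
kind and `K = ℚ(i)`:

* the field `Ω(D)` generated over `K` by the square roots of all the elements admissible for `D` is infinite over
  `K`, and `y² = x³ + D x` has exactly two points over `Ω(D)`;
* the rank conjecture is true, with order and rank `0`, for `y² = x³ + D x` over all the number fields `F` with
  `K ⊆ F ⊆ Ω(D)`;
* and for `y² = x³ + D M² x` over `K`, for all `M` admissible for `D`. -/
theorem result : (0.4194 < c ∧ c < 0.4195) ∧ Tendsto share atTop (nhds c) ∧
    ∀ D : GaussianInt, D ∈ Class → Indecomposable D → Conclusion D := by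
  have hc : c = Pool.Agent.U695.XG.c2 := rfl
  have hb := t_C2.2
  refine ⟨⟨hc ▸ hb.2.2.1, hc ▸ hb.2.2.2⟩, ?_, ?_⟩
  · rw [hc]
    refine den13.congr fun X => ?_
    unfold share
    rw [count_class, count_good]
  · intro D h1 h2 K _ _ e
    have hg := good4 h1 h2
    refine ⟨?_, over_omega e hg, fun F hF hfd => ?_, fun M hM => over_K e hg (sqP_iff.2 hM)⟩
    · unfold InfiniteOver
      rw [omega_eq]
      refine Pool.Agent.U707.TW.tower_inf e hg.ps ?_
      rintro rfl
      have := hg.nm
      norm_num at this
    · rw [omega_eq] at hF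
      exact over_F e hg F hF

end Pool.Agent.Results.MP_ae0bd0_nt.InfiniteTowersQuarticTwists
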